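import Pool.Agent.H599.EX.FIN
import Pool.Agent.H599.EX.FUR
import Pool.Agent.H599.SP.LB

set_option autoImplicit false

/-!
# The dimension of the exceptional set over function fields

The question over a finite field `F`: `ℝ / ℤ` is replaced by the compact group `F((1/t)) / F[t]` (`Torus F`: the
sequences of the coefficients of `t⁻¹, t⁻², …`) with its usual metric (`|t⁻¹| = 1/q`), and the integers `a`, `b` by
nonconstant polynomials `A`, `B`.  Let `D_A(x)` be the Hausdorff dimension of the closure of `{A ^ n x}`.

Over the integers the set of the `x` for which the inequality of Furstenberg's conjecture fails has Hausdorff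
dimension zero (Shmerkin, Wu).  Here its Hausdorff dimension is exactly `1/2`, for EVERY pair of nonconstant
polynomials.  More generally, for `m` nonconstant polynomials and `0 < s ≤ 1` the set of the irrational `x` for which
the sum of the `m` dimensions is less than `m s` has the Hausdorff dimension `s`, and so has the smaller set of the
irrational `x` for which the closures of ALL joint orbits of `x` have Hausdorff dimensions less than `s`.
-/

open Polynomial
open scoped ENNReal
open Pool.Agent.H599.Tor

namespace Pool.Agent.Results.MP_c9a594_an.ExceptionalSet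

/-- **The dimension of the exceptional set over function fields.** -/
theorem result (F : Type) [Field F] [Fintype F] :
    -- the exceptional set for two polynomials
    (∀ A B : F[X], 1 ≤ A.natDegree → 1 ≤ B.natDegree →
      dimH {x : Torus F | Irrational x ∧
        dimH (closure (Set.range fun n : ℕ => mul (A ^ n) x)) +
          dimH (closure (Set.range fun n : ℕ => mul (B ^ n) x)) < 1} = 1 / 2) ∧
    ∀ s : ℝ, 0 < s → s ≤ 1 →
      -- all polynomials and all joint orbits simultaneously
      dimH {x : Torus F | Irrational x ∧ ∀ (m : ℕ) (A : Fin m → F[X]),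
        dimH (closure (orbit A x)) < ENNReal.ofReal s} = ENNReal.ofReal s ∧
      -- the sum of the dimensions for `m` polynomials
      ∀ (m : ℕ) (A : Fin m → F[X]), 0 < m → (∀ i, 1 ≤ (A i).natDegree) →
        dimH {x : Torus F | Irrational x ∧
          ∑ i, dimH (closure (Set.range fun n : ℕ => mul (A i ^ n) x)) < ENNReal.ofReal (m * s)} =
            ENNReal.ofReal s := by
  have main := fun (s : ℝ) (h : s ≤ 1) => Pool.Agent.H599.EX.FIN.main (F := F) Pool.Agent.H599.SP.t_LB
    Pool.Agent.H599.EX.t_FUR Pool.Agent.H599.EX.t_YW s h
  refine ⟨fun A B hA hB => ?_, fun s _ h => main s h⟩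
  have h1 := (main (1 / 2) (by norm_num)).2 2 ![A, B] (by norm_num) (by
    intro i
    fin_cases i
    · exact hA
    · exact hB)
  have e : ENNReal.ofReal (1 / 2) = 1 / 2 := by
    rw [ENNReal.ofReal_div_of_pos (by norm_num), ENNReal.ofReal_one, ENNReal.ofReal_ofNat]
  simp only [Fin.sum_univ_two] at h1
  rw [e, show ((2 : ℕ) : ℝ) * (1 / 2) = 1 by norm_num, ENNReal.ofReal_one] at h1
  exact h1

end Pool.Agent.Results.MP_c9a594_an.ExceptionalSet
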