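import Pool.Agent.H599.FIN
import Pool.Agent.H599.RK2
import Pool.Agent.H599.EX.LEV
import Pool.Agent.H599.EX.FUR
import Pool.Agent.H599.SP.LB
import Pool.Agent.H599.SP.GEN
import Pool.Agent.H599.SP.CMP
import Pool.Agent.H599.SP.KS
import Pool.Agent.H599.SP.RAT

set_option autoImplicit false

/-!
# The dimensions of orbit closures over function fields

The question over a finite field `F` with `q` elements: `ℝ / ℤ` is replaced by the compact group
`F((1/t)) / F[t]` (`Torus F`: the sequences of the coefficients of `t⁻¹, t⁻², …`) with its usual metric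
(`|t⁻¹| = 1/q`), and the integers `a, b ≥ 2` by nonconstant polynomials.  For polynomials `A_1, …, A_m`
let `orbit A x` be the set of all products `A_1 ^ e_1 ⋯ A_m ^ e_m x`; for `m = 1` it is the orbit of `x` under the
multiplication by `A_1`, and the dimension of its closure is the quantity of the question.

Furstenberg's conjecture says that for multiplicatively independent `a`, `b` the two dimensions add up to at
least one, for every irrational `x`.  Over a function field there is no such inequality:

* (1) Let `r_k` (`rank x (p ^ k)`) be the dimension over `F(t)` of the span of the `p ^ k` decimations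
  `(x_{p ^ k n + r})_n` of the coefficients of `x`, modulo `F(t)`, `p` the characteristic.  The closure of EVERY
  joint orbit `orbit A x` has a Hausdorff dimension of at most `r_k / p ^ k`, for every `k`; and `r_k / p ^ k` is
  exactly the Hausdorff dimension of the closure of the set of all products `B ^ (p ^ k) x`, `B` in `F[t]`.
* (2) For every real `α` between `0` and `1` consider the set of the irrational `x` for which all nonconstant
  polynomials `A` (and all joint orbits of finitely many polynomials, not all of them constant) have orbit closures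
  of dimension exactly `α`.  It is not empty, and its Hausdorff dimension is exactly `α`.

If `x` is algebraic over `F(t)`, all these dimensions are zero (`OverPolynomialRings`, helper488).
-/

open Polynomial
open scoped ENNReal
open Pool.Agent.H599.Tor Pool.Agent.H599.RK

namespace Pool.Agent.Results.MP_c9a594_an.FunctionFieldSpectrum

/-- **The dimensions of orbit closures over function fields.** -/
theorem result (F : Type) [Field F] [Fintype F] (p : ℕ) [Fact p.Prime] [CharP F p] :
    -- (1) the upper bound by the rank of the decimations, which is the dimension for all `p ^ k`-th powers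
    (∀ (x : Torus F) (k : ℕ),
      dimH (closure (Set.range fun B : F[X] => mul (B ^ p ^ k) x)) =
        (rank x (p ^ k) : ℝ≥0∞) / ((p ^ k : ℕ) : ℝ≥0∞) ∧
      ∀ (m : ℕ) (A : Fin m → F[X]),
        dimH (closure (orbit A x)) ≤ (rank x (p ^ k) : ℝ≥0∞) / ((p ^ k : ℕ) : ℝ≥0∞)) ∧
    -- (2) all values, and the dimensions of the level sets
    (∀ α : ℝ, 0 ≤ α → α ≤ 1 →
      {x : Torus F | Irrational x ∧ ∀ (m : ℕ) (A : Fin m → F[X]), (∃ i, 1 ≤ (A i).natDegree) →
        dimH (closure (orbit A x)) = ENNReal.ofReal α}.Nonempty ∧
      dimH {x : Torus F | Irrational x ∧ ∀ (m : ℕ) (A : Fin m → F[X]), (∃ i, 1 ≤ (A i).natDegree) →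
        dimH (closure (orbit A x)) = ENNReal.ofReal α} = ENNReal.ofReal α) := by
  refine ⟨fun x k => ⟨Pool.Agent.H599.RK.pow_dim p x k, fun m A => Pool.Agent.H599.RK.dim_upper_rank p x k m A⟩,
    fun α h0 h1 => ⟨?_, ?_⟩⟩
  · obtain ⟨x, hx1, hx2⟩ := Pool.Agent.H599.FIN.spectrum Pool.Agent.H599.SP.t_LB Pool.Agent.H599.SP.t_GEN
      Pool.Agent.H599.SP.t_CMP Pool.Agent.H599.SP.t_KS Pool.Agent.H599.SP.t_RAT F p α h0 h1
    exact ⟨x, hx1, hx2⟩
  · exact Pool.Agent.H599.EX.LEV.level (F := F) Pool.Agent.H599.SP.t_LB Pool.Agent.H599.SP.t_CMP
      Pool.Agent.H599.SP.t_KS Pool.Agent.H599.SP.t_RAT Pool.Agent.H599.EX.t_FUR Pool.Agent.H599.EX.t_YW α h0 h1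

end Pool.Agent.Results.MP_c9a594_an.FunctionFieldSpectrum
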