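import Pool.Agent.H599.PR.LIN
import Pool.Agent.H599.PR.SPR
import Pool.Agent.H599.PR.REFL
import Pool.Agent.H599.PR.SUM
import Pool.Agent.H599.SP.LB
import Pool.Agent.H599.SP.CMP
import Pool.Agent.H599.SP.KS
import Pool.Agent.H599.SP.RAT

set_option autoImplicit false

/-!
# All pairs of dimensions of orbit closures for two polynomials of degree one

The question over a finite field `F`: `ℝ / ℤ` is replaced by the compact group `F((1/t)) / F[t]` (`Torus F`: the
sequences of the coefficients of `t⁻¹, t⁻², …`) with its usual metric (`|t⁻¹| = 1/q`), and the multiplicatively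
independent integers `a`, `b` by two multiplicatively independent polynomials `A`, `B` of degree one, for example
`t` and `t + 1`.

Furstenberg's conjecture says that the dimensions of the two orbit closures of an irrational number add up to at
least one.  For `A` and `B` there is no relation at all between the two dimensions: for EVERY pair of real
numbers `α`, `β` between `0` and `1` there is an irrational `x` such that the closure of `{A ^ n x}` has the
Hausdorff dimension `α` and the closure of `{B ^ n x}` has the Hausdorff dimension `β`.
-/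

open Polynomial
open scoped ENNReal
open Pool.Agent.H599.Tor

namespace Pool.Agent.Results.MP_c9a594_an.IndependentPairs

/-- **All pairs of dimensions occur for two multiplicatively independent polynomials of degree one.** -/
theorem result (F : Type) [Field F] [Fintype F] (A B : F[X]) (hA : A.natDegree = 1) (hB : B.natDegree = 1)
    (hAB : ∀ k l : ℕ, 0 < k → 0 < l → A ^ k ≠ B ^ l)
    (α β : ℝ) (h0 : 0 ≤ α) (h1 : α ≤ 1) (h2 : 0 ≤ β) (h3 : β ≤ 1) :
    ∃ x : Torus F, Irrational x ∧
      dimH (closure (Set.range fun n : ℕ => mul (A ^ n) x)) = ENNReal.ofReal α ∧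
      dimH (closure (Set.range fun n : ℕ => mul (B ^ n) x)) = ENNReal.ofReal β :=
  Pool.Agent.H599.PR.LIN.pairs_linear Pool.Agent.H599.SP.t_LB Pool.Agent.H599.SP.t_CMP Pool.Agent.H599.SP.t_KS
    Pool.Agent.H599.SP.t_RAT Pool.Agent.H599.PR.t_SPR Pool.Agent.H599.PR.t_REFL Pool.Agent.H599.PR.t_SUM
    Pool.Agent.H599.PR.t_SCAL A B hA hB hAB α β h0 h1 h2 h3

end Pool.Agent.Results.MP_c9a594_an.IndependentPairs
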