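import Pool.Agent.H488.FO.AlgExample

/-!
# Furstenberg's orbit closure conjecture over `F[t]`, `F` finite: every algebraic irrational
# is a counterexample, for all pairs

The analogue of the question with `F[t]` in the place of `ℤ`: `F` is a finite field with `q`
elements, the circle is replaced by the torus `F((1/t)) / F[t]`. Its elements are the classes of the
series `∑ s i t ^ (-i - 1)`, `s : ℕ → F`, and a polynomial `a` acts by
`(act a s) m = ∑ j, a_j s (m + j)`. The distance of two different elements is `q ^ (-n - 1)`, where
`n` is the first index where they differ; the Hausdorff dimension of the torus is `1`.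

* Let `x` be algebraic over `F(t)`, and `a 0, …, a (r - 1)` any polynomials. The closure of the
  orbit of `x` under the multiplicative semigroup generated by the `a i` has at most `C n ^ r` words
  of length `n`; so its dimension is `0`. In particular `dim O_a(x) + dim O_b(x) = 0 < 1` for ALL
  pairs `a, b` and ALL algebraic irrational `x`.
* The algebraic irrational `x` are dense in the torus; and for every irrational `x` the orbit under
  all polynomials is dense.

The digits of an algebraic series form a `q`-automatic sequence (the easy half of Christol's theorem,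
proved here with Ore's relations and the Cartier operators). Since `a ^ N = a(t ^ N)` for `N = q ^ k`,
the first `N` digits of `a ^ n x` depend on `n mod N` and on boundedly many digits of boundedly many
sequences only.
-/

set_option autoImplicit false

namespace Pool.Agent.Results.MP_c9a594_an.OverPolynomialRings

open Polynomial H488.FO

universe u

/-- The closure of the orbit `x, a x, a ^ 2 x, …`. -/
def O {F : Type u} [Field F] [Fintype F] (a : F[X]) (x : ℕ → F) : Set (Torus F) :=
  closure {s | ∃ n : ℕ, s = act (a ^ n) x}

lemma O_eq {F : Type u} [Field F] [Fintype F] (a : F[X]) (x : ℕ → F) :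
    O a x = closure (orbit (fun _ : Fin 1 => a) x) := by
  unfold O orbit
  congr 1
  ext s
  constructor
  · rintro ⟨n, rfl⟩
    exact ⟨fun _ => n, by simp⟩
  · rintro ⟨n, rfl⟩
    exact ⟨n 0, by simp⟩

/-- **Furstenberg's orbit closure conjecture over polynomial rings.** -/
theorem result (F : Type u) [Field F] [Fintype F] :
    dimH (Set.univ : Set (Torus F)) = 1 ∧
    (∀ x : ℕ → F, IsAlg x → ∀ (r : ℕ) (a : Fin r → F[X]),
      (∃ C : ℕ, ∀ n : ℕ, 1 ≤ n → (words n (closure (orbit a x))).ncard ≤ C * n ^ r) ∧
      dimH (closure (orbit a x)) = 0) ∧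
    (∀ x : ℕ → F, IsAlg x → ∀ a b : F[X], dimH (O a x) + dimH (O b x) = 0) ∧
    (∀ (y : ℕ → F) (n : ℕ), ∃ x : ℕ → F, IsAlg x ∧ ¬ IsRational x ∧ ∀ i < n, x i = y i) ∧
    (∀ x : ℕ → F, ¬ IsRational x → closure {s : Torus F | ∃ a : F[X], s = act a x} = Set.univ) ∧
    (∀ x : ℕ → F, IsAlg x → Automatic x) ∧
    (∀ x : ℕ → F, Automatic x → ∀ (r : ℕ) (a : Fin r → F[X]),
      (∃ C : ℕ, ∀ n : ℕ, 1 ≤ n → (words n (closure (orbit a x))).ncard ≤ C * n ^ r) ∧
      dimH (closure (orbit a x)) = 0) := by
  refine ⟨dimH_univ, fun x hx r a => ⟨words_bound hx.automatic a, dimH_closure_orbit hx.automatic a⟩,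
    fun x hx a b => ?_, exists_algebraic, fun x hx => dense_full hx, fun x hx => hx.automatic,
    fun x hx r a => ⟨words_bound hx a, dimH_closure_orbit hx a⟩⟩
  rw [O_eq, O_eq, dimH_closure_orbit hx.automatic, dimH_closure_orbit hx.automatic, add_zero]

end Pool.Agent.Results.MP_c9a594_an.OverPolynomialRings
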